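import Pool.Agent.Helper4.TH.StD

/-!
# Project TH: solutions of the relations with given leading forms
-/

set_option autoImplicit false

namespace Pool.Agent.Helper41.TH

open Pool.Agent.Helper4.TH Pool.Agent.Helper93.TLH
open Pool.Agent.Helper14.W5 (e5 tr5 Fn5 op5 Wd5 dX dY bb5 S5Trm S5Low0 S5Nfa S5Lw1 S5Bb oA Lw)

private theorem five0 : (5 : ZMod 5) = 0 := by decide

private theorem five {M : Type*} [AddCommGroup M] [Module (ZMod 5) M] (x : M) :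
    (5 : ZMod 5) • x = 0 := by rw [five0, zero_smul]

theorem hLed (ht : S5Trm) (hl : S5Low0) (hn : S5Nfa) (h1 : S5Lw1) (hw : TLw1) (hb : S5Bb)
    (hs : TSol) (hsu : TSur) : TLed := by
  intro r s al be u v hal hbe hev hv
  obtain ⟨-, -, -, -, wmono, -, ldx, ldy, -⟩ := hl r s
  obtain ⟨b1, -⟩ := hb r s
  obtain ⟨-, -, -, -, -, -, nA, -⟩ := hn r s
  obtain ⟨l0, -⟩ := h1 r s
  obtain ⟨w1, -, -, -, wodd, wbb⟩ := hw r s
  have hal' : (al : ℤ) < 5 ^ r := by exact_mod_cast hal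
  have hbe' : (be : ℤ) < 5 ^ s := by exact_mod_cast hbe
  obtain ⟨d, hd⟩ : ∃ d : ℤ, d = (al : ℤ) + be := ⟨_, rfl⟩
  have hodd : Odd (d - 1) := by
    obtain ⟨m, hm'⟩ := hev
    have e : (al : ℤ) + be = m + m := by exact_mod_cast hm'
    exact ⟨(m : ℤ) - 1, by linarith⟩
  -- the operators
  obtain ⟨T, hT⟩ : ∃ T : Module.End (ZMod 5) (Fn5 (5 ^ r) (5 ^ s)), T = op5 1 1 0 1 := ⟨_, rfl⟩
  obtain ⟨ρ, hρ⟩ : ∃ ρ : Module.End (ZMod 5) (Fn5 (5 ^ r) (5 ^ s)), ρ = op5 4 (-1) 2 (-2) :=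
    ⟨_, rfl⟩
  obtain ⟨σ, hσ⟩ : ∃ σ : Module.End (ZMod 5) (Fn5 (5 ^ r) (5 ^ s)), σ = op5 6 (-5) 2 (-8) :=
    ⟨_, rfl⟩
  have hσρ : ∀ F : Fn5 (5 ^ r) (5 ^ s), σ F = ρ (op5 1 (-1) 2 (-9) F) := by
    intro F
    obtain ⟨m1, m2, m3⟩ := ht (ZMod 5) r s F
    have e1 := m1 4 (-1) 2 (-2) 1 (-1) 2 (-9) (by decide) (by decide) (by decide) (by decide)
    have e2 := m3 (-1) 6 (-5) 2 (-8) (by decide) (by decide) (by decide)
    norm_num at e1 e2
    rw [hσ, hρ]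
    change tr5 6 (-5) 2 (-8) F = tr5 4 (-1) 2 (-2) (tr5 1 (-1) 2 (-9) F)
    rw [e1, e2]
  have hρρ : ∀ F : Fn5 (5 ^ r) (5 ^ s), ρ (ρ F) = op5 3 (-1) 2 (-3) F := by
    intro F
    obtain ⟨m1, m2, m3⟩ := ht (ZMod 5) r s F
    have e1 := m1 4 (-1) 2 (-2) 4 (-1) 2 (-2) (by decide) (by decide) (by decide) (by decide)
    have e2 := m3 2 3 (-1) 2 (-3) (by decide) (by decide) (by decide)
    norm_num at e1 e2
    rw [hρ]
    change tr5 4 (-1) 2 (-2) (tr5 4 (-1) 2 (-2) F) = tr5 3 (-1) 2 (-3) F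
    rw [e1, e2]
  have hρW : ∀ (k : ℤ) (F : Fn5 (5 ^ r) (5 ^ s)), F ∈ Wd5 k → ρ F ∈ Wd5 k := by
    intro k F hF
    have h := l0 4 (-1) 2 (-2) (by decide) (by decide) k F hF
    rw [sub_zero, ← hρ] at h
    exact h
  have hN : ∀ (k : ℤ) (F : Fn5 (5 ^ r) (5 ^ s)), F ∈ Wd5 k →
      op5 1 (-1) 2 (-9) F - F ∈ Wd5 (k - 1) := by
    intro k F hF
    have g1 := wmono _ _ (by linarith : k - 2 ≤ k - 1) (w1 k F hF)
    have g2 := ldx k F hF
    have g3 := ldy k F hF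
    have e : op5 1 (-1) 2 (-9) F - F =
        (op5 1 (-1) 2 (-9) - 1 + dX - (2 : ZMod 5) • dY :
          Module.End (ZMod 5) (Fn5 (5 ^ r) (5 ^ s))) F - dX F + (2 : ZMod 5) • dY F := by
      simp only [LinearMap.sub_apply, LinearMap.add_apply, LinearMap.smul_apply,
        Module.End.one_apply]
      abel
    rw [e]
    exact Submodule.add_mem _ (Submodule.sub_mem _ g1 g2) (Submodule.smul_mem _ _ g3)
  have hσW : ∀ (k : ℤ) (F : Fn5 (5 ^ r) (5 ^ s)), F ∈ Wd5 k → σ F - ρ F ∈ Wd5 (k - 1) := by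
    intro k F hF
    rw [hσρ, ← map_sub]
    exact hρW _ _ (hN k F hF)
  obtain ⟨P, hP⟩ : ∃ P : Fn5 (5 ^ r) (5 ^ s), P = bb5 al be := ⟨_, rfl⟩
  have hPW : P ∈ Wd5 d := by
    rw [hP, hd]
    exact b1 al be hal hbe
  have hPv : v • (ρ P + P) ∈ Wd5 (d - 1) := by
    by_cases h0 : v = 0
    · rw [h0, zero_smul]
      exact Submodule.zero_mem _
    · have hmod : (al + 3 * be) % 4 = 2 := by
        have h4 : (al + 3 * be) % 4 ≠ 0 := fun h => h0 (hv h)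
        obtain ⟨m, hm'⟩ := hev
        omega
      have h2 : (2 : ZMod 5) ^ (al + 3 * be) = 4 := by
        obtain ⟨k, hk⟩ : ∃ k, al + 3 * be = 4 * k + 2 := ⟨(al + 3 * be) / 4, by omega⟩
        rw [hk, pow_add, pow_mul]
        have e : (2 : ZMod 5) ^ 4 = 1 := by decide
        rw [e, one_pow, one_mul]
        decide
      have h3 := wbb al be hal hbe
      rw [h2, ← hρ, ← hP, ← hd] at h3
      refine Submodule.smul_mem _ _ ?_
      have e : ρ P + P = (ρ P - (4 : ZMod 5) • P) + (5 : ZMod 5) • P := by module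
      rw [e, five, add_zero]
      exact h3
  -- the defect of the first approximation
  obtain ⟨E0, hE0⟩ : ∃ E0 : Fn5 (5 ^ r) (5 ^ s), E0 = u • P - T (u • P) -
      ((3 * v) • P - ρ ((3 * v) • P)) - ((-(3 * v)) • P - σ ((-(3 * v)) • P)) := ⟨_, rfl⟩
  have hE0W : E0 ∈ Wd5 (d - 1) := by
    have g1 : T P - P ∈ Wd5 (d - 1) := by
      have h := nA d P hPW
      rw [LinearMap.sub_apply, Module.End.one_apply, oA, ← hT] at h
      exact h
    have g2 := hσW d P hPW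
    have e : E0 = -(u • (T P - P)) - (3 * v) • (σ P - ρ P) := by
      rw [hE0]
      simp only [map_smul]
      module
    rw [e]
    exact Submodule.sub_mem _ (Submodule.neg_mem _ (Submodule.smul_mem _ _ g1))
      (Submodule.smul_mem _ _ g2)
  obtain ⟨A1, hA1⟩ : ∃ A1 : Fn5 (5 ^ r) (5 ^ s), A1 = (2 : ZMod 5) • (-E0 + ρ (-E0)) := ⟨_, rfl⟩
  have hA1W : A1 ∈ Wd5 (d - 1) := by
    rw [hA1]
    exact Submodule.smul_mem _ _ (Submodule.add_mem _ (Submodule.neg_mem _ hE0W)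
      (hρW _ _ (Submodule.neg_mem _ hE0W)))
  obtain ⟨E1, hE1⟩ : ∃ E1 : Fn5 (5 ^ r) (5 ^ s), E1 = E0 - (A1 - ρ A1) := ⟨_, rfl⟩
  have hE1W : E1 ∈ Wd5 (d - 2) := by
    have g := wodd (d - 1) E0 hE0W hodd
    rw [← hρρ] at g
    have e : E1 = (5 : ZMod 5) • E0 - (2 : ZMod 5) • (ρ (ρ E0) + E0) := by
      rw [hE1, hA1]
      simp only [map_smul, map_add, map_neg]
      module
    rw [e, five, zero_sub]
    have e2 : d - 1 - 1 = d - 2 := by ring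
    rw [e2] at g
    exact Submodule.neg_mem _ (Submodule.smul_mem _ _ g)
  obtain ⟨f2, a2, b2, hf2, ha2, -, hEq⟩ := hsu r s (d - 2) E1 (by linarith) hE1W
  have e3 : d - 2 + 1 = d - 1 := by ring
  rw [e3] at hf2 ha2
  rw [← hT, ← hρ, ← hσ] at hEq
  obtain ⟨f, hf⟩ : ∃ f : Fn5 (5 ^ r) (5 ^ s), f = u • P - f2 := ⟨_, rfl⟩
  obtain ⟨a, ha⟩ : ∃ a : Fn5 (5 ^ r) (5 ^ s), a = (3 * v) • P + A1 - a2 := ⟨_, rfl⟩
  obtain ⟨b, hb'⟩ : ∃ b : Fn5 (5 ^ r) (5 ^ s), b = (-(3 * v)) • P - b2 := ⟨_, rfl⟩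
  have hdef : f - T f - (a - ρ a) - (b - σ b) = 0 := by
    have e : f - T f - (a - ρ a) - (b - σ b) =
        E1 - (f2 - T f2 - (a2 - ρ a2) - (b2 - σ b2)) := by
      rw [hE1, hE0, hf, ha, hb']
      simp only [map_sub, map_add]
      abel
    rw [e, hEq, sub_self]
  rw [hT, hρ, hσ] at hdef
  refine ⟨_, hs (ZMod 5) _ r s f a b fun x y => congrFun (congrFun hdef x) y, ?_, ?_⟩
  · change f - u • bb5 al be ∈ Wd5 ((al : ℤ) + be - 1)
    rw [hf, hP, ← hd]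
    have e : u • bb5 al be - f2 - u • bb5 al be = -f2 := by abel
    rw [e]
    exact Submodule.neg_mem _ hf2
  · change a - op5 4 (-1) 2 (-2) a - v • bb5 al be ∈ Wd5 ((al : ℤ) + be - 1)
    rw [← hρ, ← hP, ← hd]
    have e : a - ρ a - v • P = (5 * v) • P - (3 : ZMod 5) • (v • (ρ P + P)) +
        (A1 - ρ A1) - (a2 - ρ a2) := by
      rw [ha]
      simp only [map_sub, map_add, map_smul]
      module
    rw [e, five0, zero_mul, zero_smul, zero_sub]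
    refine Submodule.sub_mem _ (Submodule.add_mem _ (Submodule.neg_mem _
      (Submodule.smul_mem _ _ hPv)) ?_) ?_
    · exact Submodule.sub_mem _ hA1W (hρW _ _ hA1W)
    · exact Submodule.sub_mem _ ha2 (hρW _ _ ha2)

end Pool.Agent.Helper41.TH
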